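import Pool.Agent.SGL.StmtsG
import Pool.Agent.Helper88_SGL.GGP

set_option autoImplicit false

noncomputable section

namespace Pool.Agent.SGL.H36

open Pool.Agent.SGE Pool.Agent.SGP Pool.Agent.SGY Pool.Agent.SGD
open Pool.Agent.SGL.H88 (hh_one bb_ge co_a co_ne rho_bd oa_pos up_pos dn_pos)

/-- Row GDL: the slices. -/
theorem gdl : GdlStmt := by
  intro V a b c E F N σ k ρ hσ hL hc hca
  refine ⟨?_, ?_, ?_, ?_, ?_, ?_⟩
  · intro p hp q hq r hr h1 h2 h3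
    exact dn_pos hL hp.1 hq.1 hr.1 hp.2 hq.2 hr.2 h1 h3 h2
  · intro p hp q hq r hr h1 h2 h3
    have h1' : σ (k p) = σ (k q) := h1
    have h3' : σ (k p) < σ (k r) := h3
    exact up_pos hL hp.1 hq.1 hr.1 hp.2 hq.2 hr.2 h3' (h1' ▸ h3') h2
  · intro p hp q hq h1
    refine oa_pos hσ hL hp.1 hq.1 hp.2 hq.2 ?_
    by_contra hc'
    exact absurd (hσ (not_lt.1 hc')) (not_le.2 h1)
  · intro p hp q hq hpc h1
    have h1' : σ (k p) < σ (k q) := h1
    refine up_pos hL hc hp.1 hq.1 hca hp.2 hq.2 ?_ h1' (hL.rc p hp.1 hp.2 hpc)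
    refine lt_of_le_of_lt (hσ ?_) h1'
    rw [hL.kc]
    exact Nat.zero_le _
  · intro p hp q hq h
    rw [co_ne hp.2, co_ne hq.2]
    show (ρ p : ℝ) < (ρ q : ℝ)
    exact_mod_cast h
  · intro p hp
    rw [co_ne hp.2, co_a]
    show (ρ p : ℝ) < ww N σ
    have h1 := (rho_bd hL hp.1 hp.2).2
    have h2 : (0 : ℝ) ≤ bb N ^ σ (N + 1) := pow_nonneg (zero_le_one.trans (bb_ge N)) _
    have h3 := hh_one N
    have hN : (0 : ℝ) ≤ N := Nat.cast_nonneg _
    unfold ww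
    nlinarith

end Pool.Agent.SGL.H36
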