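import Pool.Agent.SGL.StmtsU

set_option autoImplicit false

noncomputable section

namespace Pool.Agent.SGL.H36

open Pool.Agent.SGE Pool.Agent.SGP Pool.Agent.SGY Pool.Agent.SGD

/-- Row NYD: an upper edge and an edge from `c` or to `a`. -/
theorem nyd : NydStmt := by
  intro V a c R h s ρ A f hG hinj hle hA p q r t hpq hr hc
  obtain ⟨hp, hsp⟩ := hA.l p q hpq
  have hq := hA.r p q hpq
  have hbel : ∀ z ∈ R, s z < h → o (f p) (f q) (f z) < 0 := by
    intro z hz hzh
    rcases hq with rfl | ⟨_, hqR, hsq, hρ⟩
    · have h1 := hG.ra z hz p hp (by omega)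
      rw [o_swap]
      linarith
    · have h1 := hG.dn p hp q hqR z hz (by omega) hρ (by omega)
      rw [o_swap]
      linarith
  rcases hc with ⟨rfl, htR, hst, hfirst⟩ | ⟨rfl, hlast⟩
  · -- `r = c`
    have hth := hle t htR
    rcases lt_or_eq_of_le hth with h1 | h1
    · exact same_neg (hbel r hr (by omega)) (hbel t htR h1)
    · by_cases htp : t = p
      · subst htp
        exact com (Or.inr (Or.inl rfl))
      have hlt : ρ t < ρ p := by
        refine lt_of_le_of_ne (hfirst p hp (by omega)) fun he => htp (hinj t htR p hp he)
      intro hX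
      refine same_neg ?_ ?_ (xs_swap hX)
      · have h2 := hG.dn t htR p hp r hr (by omega) hlt hst
        rw [o_swap', o_rot]
        linarith
      · rcases hq with rfl | ⟨_, hqR, hsq, hρ⟩
        · have h2 := hG.ra r hr t htR hst
          rw [o_swap', o_rot]
          linarith
        · have h2 := hG.dn t htR q hqR r hr (by omega) (hlt.trans hρ) hst
          rw [o_swap', o_rot]
          linarith
  · -- `t = a`
    rcases hq with rfl | ⟨_, hqR, hsq, hρ⟩
    · exact com (Or.inr (Or.inr (Or.inr rfl)))
    · have hrh := hle r hr
      rcases lt_or_eq_of_le hrh with h1 | h1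
      · intro hX
        refine same_pos ?_ ?_ (xs_swap hX)
        · have h2 := hG.ra r hr p hp (by omega)
          rw [o_rot]
          exact h2
        · have h2 := hG.ra r hr q hqR (by omega)
          rw [o_rot]
          exact h2
      · by_cases hqr : q = r
        · subst hqr
          exact com (Or.inr (Or.inr (Or.inl rfl)))
        have hlt : ρ q < ρ r := lt_of_le_of_ne (hlast q hqR (by omega)) fun he =>
          hqr (hinj q hqR r hr he)
        exact sepx (hG.xx p hp r hr (hρ.trans hlt)) (hG.xa p hp) (hG.xx q hqR r hr hlt)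
          (hG.xa q hqR)

end Pool.Agent.SGL.H36
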